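import Mathlib

namespace Pool.Agent.Results.MP_8f7d8d_co.LogGap

open SimpleGraph Filter

/-- One round of the `H`-process: add every pair `uv` with `n_H(G + uv) > n_H(G)`, where
`G.copyCount H` (Mathlib) is the number of subgraphs of `G` isomorphic to `H`. -/
noncomputable def next {k : ℕ} (H : SimpleGraph (Fin k)) {V : Type} [Fintype V]
    (G : SimpleGraph V) : SimpleGraph V :=
  G ⊔ SimpleGraph.fromRel (fun u v => G.copyCount H < (G ⊔ edge u v).copyCount H)

/-- `G_t`, the graph after `t` rounds of the `H`-process started at `G`. -/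
noncomputable def proc {k : ℕ} (H : SimpleGraph (Fin k)) {V : Type} [Fintype V]
    (G : SimpleGraph V) (t : ℕ) : SimpleGraph V :=
  (next H)^[t] G

/-- The running time `τ_H(G) = min {t : G_t = G_{t+1}}`. -/
noncomputable def tau {k : ℕ} (H : SimpleGraph (Fin k)) {V : Type} [Fintype V]
    (G : SimpleGraph V) : ℕ :=
  sInf {t | proc H G t = proc H G (t + 1)}

/-- `M_H(n)`: maximum running time over all graphs on `n` vertices. -/
noncomputable def maxTime {k : ℕ} (H : SimpleGraph (Fin k)) (n : ℕ) : ℕ :=
  sSup {m | ∃ G : SimpleGraph (Fin n), tau H G = m}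

section Basic

variable {k : ℕ} {H : SimpleGraph (Fin k)} {V : Type} [Fintype V]

/-- `p q` is an edge of `G + uv`. -/
def Ext (G : SimpleGraph V) (u v p q : V) : Prop :=
  G.Adj p q ∨ (p = u ∧ q = v) ∨ (p = v ∧ q = u)

theorem copyCount_lt_iff (G : SimpleGraph V) {u v : V} (huv : u ≠ v) (hn : ¬ G.Adj u v) :
    G.copyCount H < (G ⊔ edge u v).copyCount H ↔
      ∃ f : Fin k → V, Function.Injective f ∧ (∀ i j, H.Adj i j → Ext G u v (f i) (f j)) ∧
        ∃ i j, H.Adj i j ∧ f i = u ∧ f j = v := by
  classical
  set G' := G ⊔ edge u v with hG'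
  have hle : G ≤ G' := le_sup_left
  have hadj : ∀ p q, G'.Adj p q ↔ Ext G u v p q := by
    intro p q
    simp only [hG', sup_adj, edge_adj, Ext]
    constructor
    · rintro (h | ⟨h, -⟩)
      · exact Or.inl h
      · exact Or.inr h
    · rintro (h | ⟨rfl, rfl⟩ | ⟨rfl, rfl⟩)
      · exact Or.inl h
      · exact Or.inr ⟨Or.inl ⟨rfl, rfl⟩, huv⟩
      · exact Or.inr ⟨Or.inr ⟨rfl, rfl⟩, huv.symm⟩
  -- the embedding of subgraphs
  let φ : G.Subgraph → G'.Subgraph := fun S =>
    { verts := S.verts
      Adj := S.Adj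
      adj_sub := fun h => hle (S.adj_sub h)
      edge_vert := fun h => S.edge_vert h
      symm := S.symm }
  have hφ : Function.Injective φ := by
    intro S T h
    have h1 : (φ S).verts = (φ T).verts := by rw [h]
    have h2 : (φ S).Adj = (φ T).Adj := by rw [h]
    exact Subgraph.ext h1 h2
  have hφiso : ∀ S : G.Subgraph, Nonempty (H ≃g S.coe) → Nonempty (H ≃g (φ S).coe) := by
    rintro S ⟨e⟩
    exact ⟨⟨e.toEquiv, e.map_rel_iff⟩⟩
  unfold copyCount
  constructor
  · intro hlt
    by_contra hno
    push Not at hno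
    apply absurd hlt
    rw [not_lt]
    refine Finset.card_le_card_of_surjOn φ ?_
    intro S' hS'
    simp only [Finset.coe_filter, Finset.mem_univ, true_and, Set.mem_ofPred_eq] at hS'
    obtain ⟨e⟩ := hS'
    have hsub : ∀ a b, S'.Adj a b → G.Adj a b := by
      intro a b hab
      by_contra hnab
      have hf : Function.Injective (fun i => ((e i : S'.verts) : V)) := by
        intro i j hij
        exact e.injective (Subtype.ext hij)
      have hedge : ∀ i j, H.Adj i j → Ext G u v (e i : S'.verts) (e j : S'.verts) := by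
        intro i j hij
        have : S'.coe.Adj (e i) (e j) := e.map_rel_iff.2 hij
        exact (hadj _ _).1 (S'.adj_sub this)
      have ha : a ∈ S'.verts := S'.edge_vert hab
      have hb : b ∈ S'.verts := S'.edge_vert hab.symm
      have hH : H.Adj (e.symm ⟨a, ha⟩) (e.symm ⟨b, hb⟩) := by
        apply e.map_rel_iff.1
        simpa using hab
      have hab' := (hadj _ _).1 (S'.adj_sub hab)
      rcases hab' with h | ⟨h1, h2⟩ | ⟨h1, h2⟩
      · exact hnab h
      · exact hno _ hf hedge _ _ hH (by simpa using h1) (by simpa using h2)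
      · exact hno _ hf hedge _ _ hH.symm (by simpa using h2) (by simpa using h1)
    refine ⟨{ verts := S'.verts
              Adj := S'.Adj
              adj_sub := fun h => hsub _ _ h
              edge_vert := fun h => S'.edge_vert h
              symm := S'.symm }, ?_, ?_⟩
    · simp only [Finset.coe_filter, Finset.mem_univ, true_and, Set.mem_ofPred_eq]
      exact ⟨⟨e.toEquiv, e.map_rel_iff⟩⟩
    · exact Subgraph.ext rfl rfl
  · rintro ⟨f, hf, hedge, i, j, hij, hi, hj⟩
    have hcard : (Finset.univ.filter (fun S : G.Subgraph => Nonempty (H ≃g S.coe))).card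
        = ((Finset.univ.filter (fun S : G.Subgraph => Nonempty (H ≃g S.coe))).image φ).card :=
      (Finset.card_image_of_injective _ hφ).symm
    rw [hcard]
    apply Finset.card_lt_card
    rw [Finset.ssubset_iff_of_subset]
    · let c : Copy H G' := ⟨⟨f, fun {a b} h => (hadj _ _).2 (hedge a b h)⟩, hf⟩
      refine ⟨c.toSubgraph, ?_, ?_⟩
      · simp only [Finset.mem_filter, Finset.mem_univ, true_and]
        exact ⟨c.isoToSubgraph⟩
      · intro hmem
        rw [Finset.mem_image] at hmem
        obtain ⟨S, -, hS⟩ := hmem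
        apply hn
        have : (c.toSubgraph).Adj u v := by
          refine ⟨i, j, ?_, hi, hj⟩
          exact hij
        rw [← hS] at this
        exact S.adj_sub this
    · intro S' hS'
      rw [Finset.mem_image] at hS'
      obtain ⟨S, hS, rfl⟩ := hS'
      simp only [Finset.mem_filter, Finset.mem_univ, true_and] at hS ⊢
      exact hφiso S hS

theorem next_adj (G : SimpleGraph V) (u v : V) :
    (next H G).Adj u v ↔ G.Adj u v ∨ (u ≠ v ∧ ¬ G.Adj u v ∧
      ∃ f : Fin k → V, Function.Injective f ∧ (∀ i j, H.Adj i j → Ext G u v (f i) (f j)) ∧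
        ∃ i j, H.Adj i j ∧ f i = u ∧ f j = v) := by
  classical
  by_cases hadj : G.Adj u v
  · simp [next, hadj]
  · simp only [next, sup_adj, hadj, false_or, fromRel_adj, not_false_eq_true, true_and]
    constructor
    · rintro ⟨huv, h⟩
      refine ⟨huv, ?_⟩
      have h' : G.copyCount H < (G ⊔ edge u v).copyCount H := by
        rcases h with h | h
        · exact h
        · rwa [edge_comm] at h
      exact (copyCount_lt_iff G huv hadj).1 h'
    · rintro ⟨huv, h⟩
      exact ⟨huv, Or.inl ((copyCount_lt_iff G huv hadj).2 h)⟩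

theorem le_next (H : SimpleGraph (Fin k)) (G : SimpleGraph V) : G ≤ next H G := le_sup_left

theorem proc_zero (H : SimpleGraph (Fin k)) (G : SimpleGraph V) : proc H G 0 = G := rfl

theorem proc_succ (H : SimpleGraph (Fin k)) (G : SimpleGraph V) (t : ℕ) :
    proc H G (t + 1) = next H (proc H G t) := Function.iterate_succ_apply' _ _ _

theorem proc_mono (H : SimpleGraph (Fin k)) (G : SimpleGraph V) : Monotone (proc H G) := by
  apply monotone_nat_of_le_succ
  intro t
  rw [proc_succ]
  exact le_next _ _

/-- The running time is attained. -/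
theorem tau_spec (H : SimpleGraph (Fin k)) (G : SimpleGraph V) :
    proc H G (tau H G) = proc H G (tau H G + 1) := by
  have hne : {t | proc H G t = proc H G (t + 1)}.Nonempty := by
    obtain ⟨n, hn⟩ := WellFoundedGT.monotone_chain_condition (⟨proc H G, proc_mono H G⟩ : ℕ →o _)
    exact ⟨n, hn (n + 1) (Nat.le_succ n)⟩
  exact Nat.sInf_mem hne

theorem ne_of_lt_tau (H : SimpleGraph (Fin k)) (G : SimpleGraph V) {t : ℕ} (h : t < tau H G) :
    proc H G t ≠ proc H G (t + 1) := fun h' => Nat.notMem_of_lt_sInf h h'

theorem lt_tau_of_ne (H : SimpleGraph (Fin k)) (G : SimpleGraph V) {t : ℕ}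
    (h : proc H G t ≠ proc H G (t + 1)) : t < tau H G := by
  by_contra hle
  push Not at hle
  apply h
  have key : ∀ m, tau H G ≤ m → proc H G m = proc H G (m + 1) := by
    intro m hm
    induction m, hm using Nat.le_induction with
    | base => exact tau_spec H G
    | succ m _ ih => rw [proc_succ H G (m + 1), ← ih, ← proc_succ H G m, ← ih]
  exact key t hle

theorem tau_le_maxTime (H : SimpleGraph (Fin k)) {n : ℕ} (G : SimpleGraph (Fin n)) :
    tau H G ≤ maxTime H n := by
  have hfin : {m | ∃ G : SimpleGraph (Fin n), tau H G = m}.Finite :=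
    Set.finite_range (fun G : SimpleGraph (Fin n) => tau H G)
  exact le_csSup hfin.bddAbove ⟨G, rfl⟩

theorem exists_tau_eq (H : SimpleGraph (Fin k)) (n : ℕ) :
    ∃ G : SimpleGraph (Fin n), tau H G = maxTime H n := by
  have hfin : {m | ∃ G : SimpleGraph (Fin n), tau H G = m}.Finite :=
    Set.finite_range (fun G : SimpleGraph (Fin n) => tau H G)
  have hne : {m | ∃ G : SimpleGraph (Fin n), tau H G = m}.Nonempty := ⟨tau H ⊥, ⊥, rfl⟩
  exact Nat.sSup_mem hne hfin.bddAbove

end Basic

section Restriction

variable {k : ℕ} {H : SimpleGraph (Fin k)} {V W : Type} [Fintype V] [Fintype W]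

omit [Fintype V] [Fintype W] in
theorem Ext_map {G₁ : SimpleGraph W} {G₂ : SimpleGraph V} {ι : W ↪ V} (h : G₁ ≤ G₂.comap ι)
    {u v p q : W} (hE : Ext G₁ u v p q) : Ext G₂ (ι u) (ι v) (ι p) (ι q) := by
  rcases hE with h1 | ⟨h1, h2⟩ | ⟨h1, h2⟩
  · exact Or.inl (h h1)
  · exact Or.inr (Or.inl ⟨by rw [h1], by rw [h2]⟩)
  · exact Or.inr (Or.inr ⟨by rw [h1], by rw [h2]⟩)

theorem next_comap_le {G₁ : SimpleGraph W} {G₂ : SimpleGraph V} {ι : W ↪ V}
    (h : G₁ ≤ G₂.comap ι) : next H G₁ ≤ (next H G₂).comap ι := by
  intro u v huv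
  rw [comap_adj]
  by_cases hG : G₂.Adj (ι u) (ι v)
  · exact le_next H G₂ hG
  rw [next_adj] at huv ⊢
  rcases huv with huv | ⟨hne, -, f, hf, hE, i, j, hij, hi, hj⟩
  · exact Or.inl (h huv)
  · refine Or.inr ⟨fun h' => hne (ι.injective h'), hG, ι ∘ f, ι.injective.comp hf, ?_, i, j, hij,
      by simp [hi], by simp [hj]⟩
    intro a b hab
    exact Ext_map h (hE a b hab)

/-- The process on an induced subgraph stays inside the process on the whole graph. -/
theorem proc_comap_le (G : SimpleGraph V) (ι : W ↪ V) (t : ℕ) :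
    proc H (G.comap ι) t ≤ (proc H G t).comap ι := by
  induction t with
  | zero => exact le_refl _
  | succ t ih =>
    rw [proc_succ, proc_succ]
    exact next_comap_le ih

/-- Bound for the number of vertices on which an infection at time `t` depends. -/
def bd (k : ℕ) : ℕ → ℕ
  | 0 => 2
  | t + 1 => k + k * (k * bd k t) + bd k t

/-- Each edge present at time `t` is already present at time `t` in the process on any induced
subgraph containing a certain set of at most `bd k t` vertices. -/
theorem dep (G : SimpleGraph V) (t : ℕ) : ∀ u v : V, (proc H G t).Adj u v →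
    ∃ D : Finset V, D.card ≤ bd k t ∧ (u ∈ D ∧ v ∈ D) ∧
      ∀ (N : ℕ) (ι : Fin N ↪ V), (D : Set V) ⊆ Set.range ι →
      ∀ a b, ι a = u → ι b = v → (proc H (G.comap ι) t).Adj a b := by
  classical
  induction t with
  | zero =>
    intro u v huv
    refine ⟨{u, v}, ?_, by simp, ?_⟩
    · exact Finset.card_le_two
    · intro N ι _ a b ha hb
      rw [proc_zero] at huv ⊢
      rw [comap_adj, ha, hb]
      exact huv
  | succ t ih =>
    intro u v huv
    by_cases hold : (proc H G t).Adj u v
    · obtain ⟨D, hD, huvD, hD'⟩ := ih u v hold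
      refine ⟨D, hD.trans ?_, huvD, ?_⟩
      · simp only [bd]
        omega
      · intro N ι hsub a b ha hb
        exact proc_mono H _ (Nat.le_succ t) (hD' N ι hsub a b ha hb)
    · rw [proc_succ, next_adj] at huv
      rcases huv with huv | ⟨hne, -, f, hf, hE, i, j, hij, hi, hj⟩
      · exact absurd huv hold
      choose! D hD huvD hD' using ih
      let E : Fin k → Fin k → Finset V := fun a b =>
        if (proc H G t).Adj (f a) (f b) then D (f a) (f b) else ∅
      have hE1 : ∀ a b, (E a b).card ≤ bd k t := by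
        intro a b
        by_cases h : (proc H G t).Adj (f a) (f b)
        · simp only [E, h, if_true]
          exact hD _ _ h
        · simp [E, h]
      refine ⟨Finset.univ.image f ∪ Finset.univ.biUnion (fun a => Finset.univ.biUnion (E a)),
        ?_, ⟨?_, ?_⟩, ?_⟩
      · have h1 : (Finset.univ.image f).card ≤ k := by
          refine Finset.card_image_le.trans ?_
          simp
        have h2 : (Finset.univ.biUnion (fun a => Finset.univ.biUnion (E a))).card
            ≤ k * (k * bd k t) := by
          refine (Finset.card_biUnion_le_card_mul _ _ (k * bd k t) ?_).trans ?_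
          · intro a _
            refine (Finset.card_biUnion_le_card_mul _ _ (bd k t) (fun b _ => hE1 a b)).trans ?_
            simp
          · simp
        calc _ ≤ _ := Finset.card_union_le _ _
          _ ≤ k + k * (k * bd k t) := Nat.add_le_add h1 h2
          _ ≤ _ := by simp only [bd]; omega
      · rw [← hi]; simp
      · rw [← hj]; simp
      · intro N ι hsub a b ha hb
        have hfr : ∀ i, ∃ c, ι c = f i := by
          intro i
          apply hsub
          simp
        choose g hg using hfr
        have hginj : Function.Injective g := by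
          intro x y hxy
          apply hf
          rw [← hg, ← hg, hxy]
        have hga : g i = a := ι.injective (by rw [hg, hi, ha])
        have hgb : g j = b := ι.injective (by rw [hg, hj, hb])
        rw [proc_succ]
        by_cases hab : (proc H (G.comap ι) t).Adj a b
        · exact le_next H _ hab
        rw [next_adj]
        refine Or.inr ⟨?_, hab, g, hginj, ?_, i, j, hij, hga, hgb⟩
        · rintro rfl
          exact hne (ha.symm.trans hb)
        · intro x y hxy
          rcases hE x y hxy with h | ⟨h1, h2⟩ | ⟨h1, h2⟩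
          · left
            refine hD' _ _ h N ι ?_ _ _ (hg x) (hg y)
            intro z hz
            apply hsub
            simp only [Finset.coe_union, Set.mem_union, Finset.mem_coe, Finset.mem_biUnion,
              Finset.mem_univ, true_and]
            right
            refine ⟨x, y, ?_⟩
            simp only [E, h, if_true]
            exact hz
          · right; left
            exact ⟨ι.injective (by rw [hg, h1, ha]), ι.injective (by rw [hg, h2, hb])⟩
          · right; right
            exact ⟨ι.injective (by rw [hg, h1, hb]), ι.injective (by rw [hg, h2, ha])⟩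

end Restriction

/-- If `M_H` is unbounded, then `M_H(N) ≥ T + 1` as soon as `N ≥ bd k (T + 1)`. -/
theorem lower {k : ℕ} (H : SimpleGraph (Fin k)) (hunb : ¬ ∃ C, ∀ n, maxTime H n ≤ C)
    (T N : ℕ) (hN : bd k (T + 1) ≤ N) : T + 1 ≤ maxTime H N := by
  classical
  push Not at hunb
  obtain ⟨n, hn⟩ := hunb (max T ((Finset.range N).sup (maxTime H)))
  have hTn : T < maxTime H n := lt_of_le_of_lt (le_max_left _ _) hn
  have hNn : N ≤ n := by
    by_contra hlt
    push Not at hlt
    have h1 : maxTime H n ≤ (Finset.range N).sup (maxTime H) :=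
      Finset.le_sup (Finset.mem_range.2 hlt)
    exact absurd (lt_of_le_of_lt (le_max_right _ _) hn) (not_lt.2 h1)
  obtain ⟨G, hG⟩ := exists_tau_eq H n
  have hT : T < tau H G := by rw [hG]; exact hTn
  have hne := ne_of_lt_tau H G hT
  have hle : proc H G T ≤ proc H G (T + 1) := proc_mono H G (Nat.le_succ T)
  have hex : ∃ u v, (proc H G (T + 1)).Adj u v ∧ ¬ (proc H G T).Adj u v := by
    by_contra hno
    push Not at hno
    exact hne (le_antisymm hle (fun u v h => hno u v h))
  obtain ⟨u, v, huv, hnuv⟩ := hex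
  obtain ⟨D, hD, ⟨huD, hvD⟩, hD'⟩ := dep G (T + 1) u v huv
  obtain ⟨U, hDU, -, hU⟩ := Finset.exists_subsuperset_card_eq
    (Finset.subset_univ D) (n := N) (hD.trans hN) (by simpa using hNn)
  let ι : Fin N ↪ Fin n := (U.orderEmbOfFin hU).toEmbedding
  have hrange : Set.range ι = (U : Set (Fin n)) := Finset.range_orderEmbOfFin U hU
  have hDr : (D : Set (Fin n)) ⊆ Set.range ι := by
    rw [hrange]
    exact_mod_cast hDU
  obtain ⟨a, ha⟩ := hDr (Finset.mem_coe.2 huD)
  obtain ⟨b, hb⟩ := hDr (Finset.mem_coe.2 hvD)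
  have h1 := hD' N ι hDr a b ha hb
  have h2 : ¬ (proc H (G.comap ι) T).Adj a b := by
    intro h
    have := proc_comap_le (H := H) G ι T h
    rw [comap_adj, ha, hb] at this
    exact hnuv this
  have h3 : proc H (G.comap ι) T ≠ proc H (G.comap ι) (T + 1) := by
    intro h
    apply h2
    rw [h]
    exact h1
  exact (lt_tau_of_ne H _ h3).trans_le (tau_le_maxTime H _)

theorem bd_le (k : ℕ) (t : ℕ) : bd k t ≤ (k * k + k + 2) ^ (t + 1) := by
  induction t with
  | zero => simp [bd]
  | succ t ih =>
    have hpos : 1 ≤ (k * k + k + 2) ^ (t + 1) := Nat.one_le_pow _ _ (by omega)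
    calc bd k (t + 1) = k + (k * k + 1) * bd k t := by simp only [bd]; ring
      _ ≤ k * (k * k + k + 2) ^ (t + 1) + (k * k + 1) * (k * k + k + 2) ^ (t + 1) := by
          apply Nat.add_le_add
          · exact Nat.le_mul_of_pos_right _ hpos
          · exact Nat.mul_le_mul_left _ ih
      _ = (k * k + k + 1) * (k * k + k + 2) ^ (t + 1) := by ring
      _ ≤ (k * k + k + 2) * (k * k + k + 2) ^ (t + 1) :=
          Nat.mul_le_mul_right _ (by omega)
      _ = (k * k + k + 2) ^ (t + 1 + 1) := by ring

/-- **Gap theorem.** For every graph `H` (no assumption at all), either `M_H` is bounded, or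
`M_H(n) ≥ c log n` for some constant `c > 0` and all `n ≥ (k² + k + 2)³`, `k` the number of
vertices of `H`. -/
theorem result {k : ℕ} (H : SimpleGraph (Fin k)) :
    (∃ C : ℕ, ∀ n, maxTime H n ≤ C) ∨
      (∃ c : ℝ, 0 < c ∧ ∀ n : ℕ, (k * k + k + 2) ^ 3 ≤ n → c * Real.log n ≤ maxTime H n) := by
  by_cases hb : ∃ C, ∀ n, maxTime H n ≤ C
  · exact Or.inl hb
  right
  set K : ℕ := k * k + k + 2 with hK
  have hK2 : 2 ≤ K := by omega
  have hKr : (1 : ℝ) < K := by exact_mod_cast hK2
  have hlogK : 0 < Real.log K := Real.log_pos hKr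
  refine ⟨1 / (4 * Real.log K), by positivity, ?_⟩
  intro n hn
  have hn0 : n ≠ 0 := by
    rintro rfl
    have : 0 < K ^ 3 := by positivity
    omega
  set L := Nat.log K n with hL
  have hL3 : 3 ≤ L := by
    rw [hL]
    exact (Nat.le_log_iff_pow_le (by omega) hn0).2 hn
  have hpow : K ^ L ≤ n := Nat.pow_log_le_self K hn0
  have hlt : n < K ^ (L + 1) := Nat.lt_pow_succ_log_self (by omega) n
  -- T + 1 = L - 1
  obtain ⟨T, hT⟩ : ∃ T, L = T + 2 := ⟨L - 2, by omega⟩
  have hlow : T + 1 ≤ maxTime H n := by
    apply lower H hb T n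
    calc bd k (T + 1) ≤ K ^ (T + 1 + 1) := bd_le k (T + 1)
      _ = K ^ L := by rw [hT]
      _ ≤ n := hpow
  have hlog : Real.log n ≤ (L + 1) * Real.log K := by
    have h1 : (n : ℝ) ≤ (K : ℝ) ^ (L + 1) := by exact_mod_cast hlt.le
    have h2 : (0 : ℝ) < n := by exact_mod_cast Nat.pos_of_ne_zero hn0
    calc Real.log n ≤ Real.log ((K : ℝ) ^ (L + 1)) := Real.log_le_log h2 h1
      _ = ((L + 1 : ℕ) : ℝ) * Real.log K := Real.log_pow _ _
      _ = (L + 1) * Real.log K := by push_cast; ring
  have hLT : (L : ℝ) + 1 ≤ 4 * (T + 1) := by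
    have : L + 1 ≤ 4 * (T + 1) := by omega
    exact_mod_cast this
  have hmax : ((T : ℝ) + 1) ≤ maxTime H n := by exact_mod_cast hlow
  calc 1 / (4 * Real.log K) * Real.log n ≤ 1 / (4 * Real.log K) * ((L + 1) * Real.log K) :=
        mul_le_mul_of_nonneg_left hlog (by positivity)
    _ = (L + 1) / 4 := by field_simp
    _ ≤ T + 1 := by linarith
    _ ≤ maxTime H n := hmax

end Pool.Agent.Results.MP_8f7d8d_co.LogGap
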